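import Mathlib
import Pool.Agent.Helper259.HtDef
import Pool.Agent.TH950.ProjDef
import Pool.Agent.TH950.Proj

set_option autoImplicit false

namespace Pool.Agent.Results.MP_216eb3_nt.MinimalHeightInOrbit

open Pool.Agent.Helper259.AbsHt Pool.Agent.TH950.Proj

/-- Let `X`, `Y` be quasi-projective varieties over `Qbar`, let the group `G` act on `X`, and let
`π : X → Y` be a surjective morphism whose fibres are exactly the `G`-orbits (for instance a
geometric quotient).  For all ample heights `hX` on `X` and `hY` on `Y`, the infimum of `hX` over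
the orbit of `x` and the height `hY (π x)` bound each other linearly, uniformly in `x`. -/
theorem result {n m : ℕ} {X : Set (PSpace n)} {Y : Set (PSpace m)}
    (_ : IsQuasiProjective X) (_ : IsQuasiProjective Y)
    {G : Type*} [Group G] [MulAction G X]
    {π : X → Y} (hreg : IsRegular π) (_ : Function.Surjective π)
    (horb : ∀ x x' : X, π x = π x' ↔ x' ∈ MulAction.orbit G x)
    {hX : X → ℝ} {hY : Y → ℝ} (hhX : IsAmpleHeight X hX) (hhY : IsAmpleHeight Y hY) :
    ∃ c₁ c₂ c₃ c₄ : ℝ, 0 < c₁ ∧ 0 < c₂ ∧ ∀ x : X,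
      BddBelow (Set.range fun g : G => hX (g • x)) ∧
      c₁ * hY (π x) - c₃ ≤ ⨅ g : G, hX (g • x) ∧
      ⨅ g : G, hX (g • x) ≤ c₂ * hY (π x) + c₄ := by
  rename_i hXq _ _ _ _
  obtain ⟨N, X', e, hX', he, he', a, C, ha, hC⟩ := hhX
  obtain ⟨N₂, Y', e₂, hY', he₂, he₂', a₂, C₂, ha₂, hC₂⟩ := hhY
  -- bounds for the regular maps involved
  obtain ⟨p1, q1, hp1, hq1, h1⟩ := regular_bound he
  obtain ⟨p2, q2, hp2, hq2, h2⟩ := regular_bound he'
  obtain ⟨p3, q3, hp3, hq3, h3⟩ := regular_bound he₂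
  obtain ⟨p4, q4, hp4, hq4, h4⟩ := regular_bound he₂'
  obtain ⟨p5, q5, hp5, hq5, h5⟩ := regular_bound hreg
  obtain ⟨D, hD⟩ := exists_small_preimage hXq hreg
  -- comparison of the ample heights with the standard ones
  have hXup : ∀ x : X, hX x ≤ a * (p1 * ht x.1 + q1) + C := by
    intro x
    have := (abs_le.mp (hC x)).2
    have h6 := mul_le_mul_of_nonneg_left (h1 x) ha.le
    linarith
  have hXlow : ∀ x : X, ht x.1 ≤ p2 / a * (hX x + C) + q2 := by
    intro x
    have h6 := h2 (e x)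
    simp only [Equiv.symm_apply_apply] at h6
    have h7 := (abs_le.mp (hC x)).1
    have h8 : ht (e x).1 ≤ (hX x + C) / a := by
      rw [le_div_iff₀ ha]
      linarith
    have h9 := mul_le_mul_of_nonneg_left h8 hp2
    calc ht x.1 ≤ p2 * ((hX x + C) / a) + q2 := by linarith
      _ = _ := by ring
  have hYup : ∀ y : Y, hY y ≤ a₂ * (p3 * ht y.1 + q3) + C₂ := by
    intro y
    have := (abs_le.mp (hC₂ y)).2
    have h6 := mul_le_mul_of_nonneg_left (h3 y) ha₂.le
    linarith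
  have hYlow : ∀ y : Y, ht y.1 ≤ p4 / a₂ * (hY y + C₂) + q4 := by
    intro y
    have h6 := h4 (e₂ y)
    simp only [Equiv.symm_apply_apply] at h6
    have h7 := (abs_le.mp (hC₂ y)).1
    have h8 : ht (e₂ y).1 ≤ (hY y + C₂) / a₂ := by
      rw [le_div_iff₀ ha₂]
      linarith
    have h9 := mul_le_mul_of_nonneg_left h8 hp4
    calc ht y.1 ≤ p4 * ((hY y + C₂) / a₂) + q4 := by linarith
      _ = _ := by ring
  have hbelow : ∀ x : X, -C ≤ hX x := by
    intro x
    have h7 := (abs_le.mp (hC x)).1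
    have h8 := mul_nonneg ha.le (ht_nonneg (e x).1)
    linarith
  have hYbelow : ∀ y : Y, -C₂ ≤ hY y := by
    intro y
    have h7 := (abs_le.mp (hC₂ y)).1
    have h8 := mul_nonneg ha₂.le (ht_nonneg (e₂ y).1)
    linarith
  have hπ : ∀ (g : G) (x : X), π (g • x) = π x := fun g x =>
    ((horb x (g • x)).mpr ⟨g, rfl⟩).symm
  -- lower bound: `hY (π x) ≤ K * hX x + L`
  set K := a₂ * p3 * p5 * (p2 / a) + 1 with hK
  have hKpos : 0 < K := by positivity
  obtain ⟨L, hL⟩ : ∃ L : ℝ, ∀ x : X, hY (π x) ≤ K * hX x + L := by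
    refine ⟨a₂ * p3 * p5 * (p2 / a) * C + a₂ * p3 * p5 * q2 + a₂ * p3 * q5 + a₂ * q3 + C₂ + C,
      fun x => ?_⟩
    have e1 := hYup (π x)
    have e2 := mul_le_mul_of_nonneg_left (h5 x) (mul_nonneg ha₂.le hp3)
    have e3 := mul_le_mul_of_nonneg_left (hXlow x) (mul_nonneg (mul_nonneg ha₂.le hp3) hp5)
    have e4 := hbelow x
    rw [hK]
    nlinarith [e1, e2, e3, e4]
  -- upper bound
  set K' := a * p1 * |D| * (p4 / a₂) + 1 with hK'
  have hKpos' : 0 < K' := by positivity
  obtain ⟨L', hL'⟩ : ∃ L' : ℝ, ∀ x : X, ∃ x' : X, π x' = π x ∧ hX x' ≤ K' * hY (π x) + L' := by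
    refine ⟨a * p1 * |D| * (p4 / a₂) * C₂ + a * p1 * |D| * q4 + a * p1 * |D| + a * q1 + C + C₂,
      fun x => ?_⟩
    obtain ⟨x', hx', hb⟩ := hD x
    refine ⟨x', hx', ?_⟩
    have e0 : ht x'.1 ≤ |D| * ht (π x).1 + |D| := by
      have := mul_le_mul_of_nonneg_right (le_abs_self D) (ht_nonneg (π x).1)
      have := le_abs_self D
      linarith
    have e1 := hXup x'
    have e2 := mul_le_mul_of_nonneg_left e0 (mul_nonneg ha.le hp1)
    have e3 := mul_le_mul_of_nonneg_left (hYlow (π x))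
      (mul_nonneg (mul_nonneg ha.le hp1) (abs_nonneg D))
    have e4 := hYbelow (π x)
    rw [hK']
    nlinarith [e1, e2, e3, e4]
  refine ⟨1 / K, K', L / K, L', by positivity, hKpos', fun x => ?_⟩
  have hbdd : BddBelow (Set.range fun g : G => hX (g • x)) := by
    refine ⟨-C, ?_⟩
    rintro _ ⟨g, rfl⟩
    exact hbelow _
  refine ⟨hbdd, le_ciInf fun g => ?_, ?_⟩
  · have e1 := hL (g • x)
    rw [hπ] at e1
    rw [show 1 / K * hY (π x) - L / K = (hY (π x) - L) / K by ring, div_le_iff₀ hKpos]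
    linarith
  · obtain ⟨x', hx', hb⟩ := hL' x
    obtain ⟨g, hg⟩ := (horb x x').mp hx'.symm
    refine (ciInf_le hbdd g).trans ?_
    have hg' : g • x = x' := hg
    simp only [hg']
    exact hb

end Pool.Agent.Results.MP_216eb3_nt.MinimalHeightInOrbit
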